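import Pool.Agent.H28.MCL.Targets

/-!
Row SQD of the project MCL: divisibility by the square of a large prime.
-/

set_option autoImplicit false

open Pool.Agent.H28.MCL Finset Filter

namespace Pool.Agent.H26.MCL

private theorem log_nn (x y : ℕ) (hx : 0 < x) (hxy : x ≤ y) :
    0 ≤ Real.log ((y : ℝ) / x) := by
  apply Real.log_nonneg
  rw [le_div_iff₀ (by exact_mod_cast hx), one_mul]
  exact_mod_cast hxy

/-- sums of reciprocals over separated sets -/
theorem sep_sum (x h : ℕ) (c : ℝ) (hx : 0 < x) (hh : 0 < h) (hc : 0 ≤ c) (A : Finset ℕ) :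
    (∀ n ∈ A, x ≤ n) → (∀ n ∈ A, (1 : ℝ) / n ≤ c) → (∀ m ∈ A, ∀ n ∈ A, m < n → m + h ≤ n) →
    ∀ y : ℕ, x ≤ y → (∀ n ∈ A, n ≤ y) →
    ∑ n ∈ A, (1 : ℝ) / n ≤ c + Real.log ((y : ℝ) / x) / h := by
  have hxr : (0 : ℝ) < x := by exact_mod_cast hx
  have hhr : (0 : ℝ) < h := by exact_mod_cast hh
  induction A using Finset.induction_on_max with
  | empty =>
    intro _ _ _ y hxy _
    have h1 := log_nn x y hx hxy
    have h2 : 0 ≤ Real.log ((y : ℝ) / x) / h := by positivity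
    simp only [Finset.sum_empty]
    linarith
  | insert a s hs ih =>
    intro h1 h2 h3 y hxy h4
    have hna : a ∉ s := fun hm => lt_irrefl _ (hs a hm)
    rw [Finset.sum_insert hna]
    rcases s.eq_empty_or_nonempty with he | hne
    · subst he
      have e1 := log_nn x y hx hxy
      have e2 : 0 ≤ Real.log ((y : ℝ) / x) / h := by positivity
      have e3 := h2 a (Finset.mem_insert_self _ _)
      simp only [Finset.sum_empty]
      linarith
    · have hMs : s.max' hne ∈ s := s.max'_mem hne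
      have hxM : x ≤ s.max' hne := h1 _ (Finset.mem_insert_of_mem hMs)
      have hI := ih (fun n hn => h1 n (Finset.mem_insert_of_mem hn))
        (fun n hn => h2 n (Finset.mem_insert_of_mem hn))
        (fun m hm n hn => h3 m (Finset.mem_insert_of_mem hm) n (Finset.mem_insert_of_mem hn))
        (s.max' hne) hxM (fun n hn => s.le_max' n hn)
      have hMa : s.max' hne + h ≤ a :=
        h3 _ (Finset.mem_insert_of_mem hMs) a (Finset.mem_insert_self _ _) (hs _ hMs)
      generalize s.max' hne = M at hMs hxM hI hMa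
      have hMpos : 0 < M := lt_of_lt_of_le hx hxM
      have hMr : (0 : ℝ) < M := by exact_mod_cast hMpos
      have hapos : 0 < a := by omega
      have har : (0 : ℝ) < a := by exact_mod_cast hapos
      have hMar : (M : ℝ) + h ≤ a := by exact_mod_cast hMa
      have hay : (a : ℝ) ≤ y := by exact_mod_cast h4 a (Finset.mem_insert_self _ _)
      have k1 : (1 : ℝ) / a ≤ (Real.log a - Real.log M) / h := by
        have q1 : Real.log ((M : ℝ) / a) ≤ (M : ℝ) / a - 1 :=
          Real.log_le_sub_one_of_pos (by positivity)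
        rw [Real.log_div hMr.ne' har.ne'] at q1
        rw [le_div_iff₀ hhr]
        have q2 : 1 / (a : ℝ) * h ≤ 1 - (M : ℝ) / a := by
          rw [le_sub_iff_add_le, div_mul_eq_mul_div, ← add_div, div_le_one har]
          linarith
        linarith
      have k2 : Real.log a ≤ Real.log y := Real.log_le_log har hay
      have hyr : (0 : ℝ) < y := lt_of_lt_of_le har hay
      rw [Real.log_div hMr.ne' hxr.ne'] at hI
      rw [Real.log_div hyr.ne' hxr.ne']
      have k3 : (Real.log a - Real.log M) / h + (Real.log M - Real.log x) / h ≤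
          (Real.log y - Real.log x) / h := by
        rw [← add_div]
        apply div_le_div_of_nonneg_right _ hhr.le
        linarith
      linarith

private theorem dist_of_dvd (d m n : ℕ) (a : ℤ) (hm : (d : ℤ) ^ 2 ∣ (m : ℤ) + a)
    (hn : (d : ℤ) ^ 2 ∣ (n : ℤ) + a) (hmn : m < n) : m + d ^ 2 ≤ n := by
  have h1 : (d : ℤ) ^ 2 ∣ (n : ℤ) - m := by
    have := dvd_sub hn hm
    have e : (n : ℤ) + a - ((m : ℤ) + a) = (n : ℤ) - m := by ring
    rwa [e] at this
  have h2 : (d : ℤ) ^ 2 ≤ (n : ℤ) - m := Int.le_of_dvd (by omega) h1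
  have h3 : ((m + d ^ 2 : ℕ) : ℤ) ≤ (n : ℤ) := by push_cast; linarith
  exact_mod_cast h3

open Classical in
private theorem inner_le (a : ℤ) (d x y : ℕ) (hx : 0 < x) (hxy : x ≤ y) (hd : 0 < d) :
    ∑ n ∈ (Finset.Icc x y).filter (fun n => 2 * a.natAbs < n ∧ (d : ℤ) ^ 2 ∣ (n : ℤ) + a),
      (1 : ℝ) / n ≤ (2 + Real.log ((y : ℝ) / x)) * ((d : ℝ) ^ 2)⁻¹ := by
  have hdr : (0 : ℝ) < (d : ℝ) ^ 2 := by positivity
  have hd2 : 0 < d ^ 2 := by positivity
  have key := sep_sum x (d ^ 2) (2 * ((d : ℝ) ^ 2)⁻¹) hx hd2 (by positivity)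
    ((Finset.Icc x y).filter (fun n => 2 * a.natAbs < n ∧ (d : ℤ) ^ 2 ∣ (n : ℤ) + a))
    (fun n hn => (Finset.mem_Icc.1 (Finset.mem_filter.1 hn).1).1)
    (by
      intro n hn
      rw [Finset.mem_filter] at hn
      obtain ⟨_, hn1, hn2⟩ := hn
      have e1 : (0 : ℤ) < (n : ℤ) + a := by omega
      have e2 : (d : ℤ) ^ 2 ≤ (n : ℤ) + a := Int.le_of_dvd e1 hn2
      have e3 : (d : ℤ) ^ 2 ≤ 2 * (n : ℤ) := by
        have : a ≤ (n : ℤ) := by omega
        linarith
      have e4 : (d : ℝ) ^ 2 ≤ 2 * (n : ℝ) := by exact_mod_cast e3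
      have e5 : (0 : ℝ) < n := by
        have : 0 < n := by omega
        exact_mod_cast this
      rw [← div_eq_mul_inv, div_le_div_iff₀ e5 hdr]
      linarith)
    (by
      intro m hm n hn hmn
      rw [Finset.mem_filter] at hm hn
      exact dist_of_dvd d m n a hm.2.2 hn.2.2 hmn)
    y hxy (fun n hn => (Finset.mem_Icc.1 (Finset.mem_filter.1 hn).1).2)
  refine key.trans (le_of_eq ?_)
  push_cast
  rw [div_eq_mul_inv]
  ring

open Classical in
private theorem point_le (w : ℕ) (a : ℤ) (y n : ℕ) (hn : 0 < n) (hny : n ≤ y) :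
    ind (fun n => ∃ p : ℕ, p.Prime ∧ w < p ∧ (p : ℤ) ^ 2 ∣ (n : ℤ) + a) n / n ≤
      (if n ∈ Finset.Icc 1 (2 * a.natAbs) then (1 : ℝ) else 0) +
      ∑ d ∈ Finset.Ioc w (w + 2 * y),
        (if 2 * a.natAbs < n ∧ (d : ℤ) ^ 2 ∣ (n : ℤ) + a then (1 : ℝ) / n else 0) := by
  have hnr : (1 : ℝ) ≤ n := by exact_mod_cast hn
  have hs0 : ∀ d ∈ Finset.Ioc w (w + 2 * y), (0 : ℝ) ≤
      (if 2 * a.natAbs < n ∧ (d : ℤ) ^ 2 ∣ (n : ℤ) + a then (1 : ℝ) / n else 0) := by
    intro d _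
    split_ifs
    · positivity
    · exact le_rfl
  unfold ind
  split_ifs with h1 h2 h2
  · have := Finset.sum_nonneg hs0
    have e : (1 : ℝ) / n ≤ 1 := by
      rw [div_le_one (by linarith)]
      exact hnr
    linarith
  · obtain ⟨p, _, hwp, hp⟩ := h1
    have h3 : 2 * a.natAbs < n := by
      rw [Finset.mem_Icc] at h2
      omega
    have e1 : (0 : ℤ) < (n : ℤ) + a := by omega
    have e2 : (p : ℤ) ^ 2 ≤ (n : ℤ) + a := Int.le_of_dvd e1 hp
    have e3 : (p : ℤ) ^ 2 ≤ 2 * (n : ℤ) := by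
      have : a ≤ (n : ℤ) := by omega
      linarith
    have e4 : p ^ 2 ≤ 2 * n := by exact_mod_cast e3
    have e5 : p ≤ p ^ 2 := Nat.le_self_pow (by norm_num) p
    have hpm : p ∈ Finset.Ioc w (w + 2 * y) := by
      rw [Finset.mem_Ioc]
      omega
    have e6 := Finset.single_le_sum hs0 hpm
    rw [if_pos ⟨h3, hp⟩] at e6
    linarith
  · have := Finset.sum_nonneg hs0
    rw [zero_div]
    linarith
  · have := Finset.sum_nonneg hs0
    rw [zero_div]
    linarith

theorem sqd : T_SQD := by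
  classical
  intro w a hw
  refine ⟨⌈Real.exp (2 * (a.natAbs : ℝ) * w + 2)⌉₊, ?_⟩
  intro x y hx hKy
  have hwr : (0 : ℝ) < w := by exact_mod_cast hw
  have hxr : (0 : ℝ) < x := by exact_mod_cast hx
  have hK1 : 1 ≤ ⌈Real.exp (2 * (a.natAbs : ℝ) * w + 2)⌉₊ :=
    Nat.one_le_iff_ne_zero.2 (Nat.ceil_pos.2 (Real.exp_pos _)).ne'
  have hxy : x ≤ y := le_trans (Nat.le_mul_of_pos_left x hK1) hKy
  have hL : 2 * (a.natAbs : ℝ) * w + 2 ≤ Real.log ((y : ℝ) / x) := by
    have h1 : Real.exp (2 * (a.natAbs : ℝ) * w + 2) ≤ (y : ℝ) / x := by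
      rw [le_div_iff₀ hxr]
      have h2 : (⌈Real.exp (2 * (a.natAbs : ℝ) * w + 2)⌉₊ : ℝ) * x ≤ y := by
        exact_mod_cast hKy
      refine le_trans ?_ h2
      exact mul_le_mul_of_nonneg_right (Nat.le_ceil _) hxr.le
    have h3 := Real.log_le_log (Real.exp_pos _) h1
    rwa [Real.log_exp] at h3
  have hS : ∑ n ∈ Finset.Icc x y,
      ind (fun n => ∃ p : ℕ, p.Prime ∧ w < p ∧ (p : ℤ) ^ 2 ∣ (n : ℤ) + a) n / n ≤
      ∑ n ∈ Finset.Icc x y, ((if n ∈ Finset.Icc 1 (2 * a.natAbs) then (1 : ℝ) else 0) +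
      ∑ d ∈ Finset.Ioc w (w + 2 * y),
        (if 2 * a.natAbs < n ∧ (d : ℤ) ^ 2 ∣ (n : ℤ) + a then (1 : ℝ) / n else 0)) := by
    apply Finset.sum_le_sum
    intro n hn
    rw [Finset.mem_Icc] at hn
    exact point_le w a y n (by omega) hn.2
  rw [Finset.sum_add_distrib, Finset.sum_comm] at hS
  have hA : ∑ n ∈ Finset.Icc x y, (if n ∈ Finset.Icc 1 (2 * a.natAbs) then (1 : ℝ) else 0) ≤
      2 * (a.natAbs : ℝ) := by
    rw [← Finset.sum_filter, Finset.sum_const, nsmul_eq_mul, mul_one]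
    have h1 : ((Finset.Icc x y).filter (fun n => n ∈ Finset.Icc 1 (2 * a.natAbs))).card ≤
        (Finset.Icc 1 (2 * a.natAbs)).card := by
      apply Finset.card_le_card
      intro n hn
      exact (Finset.mem_filter.1 hn).2
    rw [Nat.card_Icc, Nat.add_sub_cancel] at h1
    exact_mod_cast h1
  have hB : ∑ d ∈ Finset.Ioc w (w + 2 * y), ∑ n ∈ Finset.Icc x y,
      (if 2 * a.natAbs < n ∧ (d : ℤ) ^ 2 ∣ (n : ℤ) + a then (1 : ℝ) / n else 0) ≤
      (2 + Real.log ((y : ℝ) / x)) * (1 / w) := by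
    have h1 : ∀ d ∈ Finset.Ioc w (w + 2 * y), ∑ n ∈ Finset.Icc x y,
        (if 2 * a.natAbs < n ∧ (d : ℤ) ^ 2 ∣ (n : ℤ) + a then (1 : ℝ) / n else 0) ≤
        (2 + Real.log ((y : ℝ) / x)) * ((d : ℝ) ^ 2)⁻¹ := by
      intro d hd
      rw [Finset.mem_Ioc] at hd
      rw [← Finset.sum_filter]
      exact inner_le a d x y hx hxy (by omega)
    refine (Finset.sum_le_sum h1).trans ?_
    rw [← Finset.mul_sum]
    apply mul_le_mul_of_nonneg_left
    · have h2 := sum_Ioc_inv_sq_le_sub (α := ℝ) (k := w) (n := w + 2 * y) hw.ne' (by omega)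
      refine h2.trans ?_
      have h3 : (0 : ℝ) ≤ (((w + 2 * y : ℕ) : ℝ))⁻¹ := by positivity
      rw [one_div]
      linarith
    · have := log_nn x y hx hxy
      linarith
  refine hS.trans ?_
  have h5 : 2 * (a.natAbs : ℝ) + (2 + Real.log ((y : ℝ) / x)) * (1 / w) ≤
      4 / w * Real.log ((y : ℝ) / x) := by
    have e1 : 2 * (a.natAbs : ℝ) + (2 + Real.log ((y : ℝ) / x)) * (1 / w) =
        (2 * (a.natAbs : ℝ) * w + 2 + Real.log ((y : ℝ) / x)) / w := by
      field_simp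
      ring
    rw [e1, div_mul_eq_mul_div]
    apply div_le_div_of_nonneg_right _ hwr.le
    have e2 : (0 : ℝ) ≤ 2 * (a.natAbs : ℝ) * w := by positivity
    linarith
  linarith

end Pool.Agent.H26.MCL
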